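import Pool.Agent.MP_66cee2_co.B.GConv
import Pool.Agent.MP_66cee2_co.B.Gauss

/-
Gaussian kernels: composition.
-/

namespace Pool.Agent.MP_66cee2_co.H50

open MeasureTheory Pool.Agent.MP_66cee2_co.X Pool.Agent.MP_66cee2_co.B

theorem sq_id {d : ℕ} (α β ν : ℝ) (h : α + ν ^ 2 * β ≠ 0) (p y z : E d) :
    α * ‖z - p‖ ^ 2 + β * ‖y - ν • z‖ ^ 2 =
      (α + ν ^ 2 * β) * ‖z - (α + ν ^ 2 * β)⁻¹ • (α • p + (β * ν) • y)‖ ^ 2 +
        α * β / (α + ν ^ 2 * β) * ‖y - ν • p‖ ^ 2 := by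
  simp only [EuclideanSpace.real_norm_sq_eq, PiLp.sub_apply, PiLp.smul_apply, PiLp.add_apply,
    smul_eq_mul, Finset.mul_sum, ← Finset.sum_add_distrib]
  refine Finset.sum_congr rfl fun i _ => ?_
  obtain ⟨s, hs⟩ : ∃ s, s = α + ν ^ 2 * β := ⟨_, rfl⟩
  rw [← hs] at h ⊢
  have ha : α = s - ν ^ 2 * β := by linarith
  rw [ha]
  field_simp
  ring

theorem conv (d : ℕ) {α β : ℝ} (hα : 0 < α) (hβ : 0 < β) (ν : ℝ) (p y : E d) :
    Integrable (fun z => G d α (z - p) * G d β (y - ν • z)) ∧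
      ∫ z, G d α (z - p) * G d β (y - ν • z) = G d (α * β / (α + ν ^ 2 * β)) (y - ν • p) := by
  have hs : 0 < α + ν ^ 2 * β := by positivity
  have hp := Real.pi_pos
  set m : E d := (α + ν ^ 2 * β)⁻¹ • (α • p + (β * ν) • y) with hm
  have hg := GConvx.gauss d _ hs m
  have hi : Integrable fun z : E d => Real.exp (-(α + ν ^ 2 * β) * ‖z - m‖ ^ 2) := by
    apply Integrable.of_integral_ne_zero
    rw [hg]
    positivity
  have pe : ∀ z : E d, G d α (z - p) * G d β (y - ν • z) =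
      ((α / Real.pi) ^ ((d : ℝ) / 2) * (β / Real.pi) ^ ((d : ℝ) / 2) *
        Real.exp (-(α * β / (α + ν ^ 2 * β)) * ‖y - ν • p‖ ^ 2)) *
        Real.exp (-(α + ν ^ 2 * β) * ‖z - m‖ ^ 2) := fun z => by
    have h := sq_id α β ν hs.ne' p y z
    have e : Real.exp (-α * ‖z - p‖ ^ 2) * Real.exp (-β * ‖y - ν • z‖ ^ 2) =
        Real.exp (-(α * β / (α + ν ^ 2 * β)) * ‖y - ν • p‖ ^ 2) *
          Real.exp (-(α + ν ^ 2 * β) * ‖z - m‖ ^ 2) := by
      rw [← Real.exp_add, ← Real.exp_add]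
      congr 1
      linear_combination (-1 : ℝ) * h
    unfold G
    linear_combination ((α / Real.pi) ^ ((d : ℝ) / 2) * (β / Real.pi) ^ ((d : ℝ) / 2)) * e
  simp only [pe]
  refine ⟨hi.const_mul _, ?_⟩
  rw [integral_const_mul, hg]
  have e : (α / Real.pi) ^ ((d : ℝ) / 2) * (β / Real.pi) ^ ((d : ℝ) / 2) *
      (Real.pi / (α + ν ^ 2 * β)) ^ ((d : ℝ) / 2) =
      (α * β / (α + ν ^ 2 * β) / Real.pi) ^ ((d : ℝ) / 2) := by
    rw [← Real.mul_rpow (by positivity) (by positivity),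
      ← Real.mul_rpow (by positivity) (by positivity)]
    congr 1
    field_simp
  unfold G
  linear_combination Real.exp (-(α * β / (α + ν ^ 2 * β)) * ‖y - ν • p‖ ^ 2) * e

end Pool.Agent.MP_66cee2_co.H50
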